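import Mathlib
import Pool.Agent.Q63.KU.Dec
import Pool.Agent.Q63.KU.MTDefs

/-!
# The Mumford-Tate conjecture for complete intersections of four diagonal quadrics, two diagonal cubics
and two diagonal quartics

Let `X` be a smooth complete intersection, of dimension two, of four diagonal quadrics
`∑ c_i x_i ^ 2 = 0` in `P^6`, or of two diagonal cubics in `P^4`, or of two diagonal quartics
in `P^4`, over any finitely generated field of characteristic zero. Then the Mumford-Tate conjecture holds
for `H^2(X)`: the algebraic monodromy group of the Galois representation is the Mumford-Tate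
group, for all `ℓ` (both in the problem are the Zariski closures of their generic fibres).

`X` is a covering of the plane with the group `(μ_m)^r/μ_m`, branched over `r` lines in general position.
For a character `a` with kernel `N_a` the surface `X/N_a` is the cyclic covering of the plane,
branched over the `r` lines with the exponents `a`. Its geometric genus `geomGenus m r a` is at
most one in all cases, and it is a rational surface or (birational to) a K3 surface. By the theorem of
Commelin on products of abelian motives the Mumford-Tate conjecture is known for products of K3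
surfaces (for one K3 surface: Tankeev, Andre), and this gives the result for `X`.
-/

set_option autoImplicit false

namespace Pool.Agent.Results.MP_6369ef_ag.DiagonalCompleteIntersections

open Pool.Agent.Q63.KU

theorem result {F V : Type} [Field F] [IsAlgClosed F] [CharZero F] [AddCommGroup V] [Module F V]
    (m r : ℕ) (h : KTypes m r) (ρ : Representation F (Multiplicative (Fin r → ZMod m)) V)
    (M L : Subgroup (V ≃ₗ[F] V)) (hD : MTData m r ρ M L) : M = L := by
  have hm : NeZero m := ⟨by rcases h with ⟨rfl, -⟩ | ⟨rfl, -⟩ | ⟨rfl, -⟩ <;> norm_num⟩
  have key : ∀ (P Q : Subgroup (V ≃ₗ[F] V)), (P = M ∧ Q = L) ∨ (P = L ∧ Q = M) → P ≤ Q := by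
    intro P Q hPQ g hg
    obtain ⟨g', hg', hgg⟩ := hD.known P Q hPQ g hg
    let A : Submodule F V := LinearMap.eqLocus (g : V →ₗ[F] V) (g' : V →ₗ[F] V)
    have hA : (⊤ : Submodule F V) ≤ A := by
      refine le_of_kernels (ρ := ρ) hD.diag (fun _ _ _ => trivial) ?_
      intro a ha v _ hN
      exact hgg a ha (genus_le h a ha) v hN
    have : g = g' := by
      ext v
      exact hA (x := v) trivial
    rw [this]
    exact hg'
  exact le_antisymm (key M L (Or.inl ⟨rfl, rfl⟩)) (key L M (Or.inr ⟨rfl, rfl⟩))

end Pool.Agent.Results.MP_6369ef_ag.DiagonalCompleteIntersections
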